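import Pool.Agent.MP_0df29f_nt.Zero.Sound
import Pool.Agent.MP_0df29f_nt.Zero.D00
import Pool.Agent.MP_0df29f_nt.Zero.D01
import Pool.Agent.MP_0df29f_nt.Zero.D02
import Pool.Agent.MP_0df29f_nt.Zero.D03
import Pool.Agent.MP_0df29f_nt.Zero.D04
import Pool.Agent.MP_0df29f_nt.Zero.D05
import Pool.Agent.MP_0df29f_nt.Zero.D06
import Pool.Agent.MP_0df29f_nt.Zero.D07
import Pool.Agent.MP_0df29f_nt.Zero.D08
import Pool.Agent.MP_0df29f_nt.Zero.D09
import Pool.Agent.MP_0df29f_nt.Zero.D10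
import Pool.Agent.MP_0df29f_nt.Zero.D11
import Pool.Agent.MP_0df29f_nt.Zero.D12
import Pool.Agent.MP_0df29f_nt.Zero.D13
import Pool.Agent.MP_0df29f_nt.Zero.D14
import Pool.Agent.MP_0df29f_nt.Zero.D15
import Pool.Agent.MP_0df29f_nt.Zero.D16
import Pool.Agent.MP_0df29f_nt.Zero.D17
import Pool.Agent.MP_0df29f_nt.Zero.D18
import Pool.Agent.MP_0df29f_nt.Zero.D19
import Pool.Agent.MP_0df29f_nt.Zero.D20
import Pool.Agent.MP_0df29f_nt.Zero.D21

set_option autoImplicit false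

namespace Pool.Agent.MP_0df29f_nt.Zero

theorem cov_all : Cov 16331 0 (4 * 16331) :=
  Cov.trans D00.all (Cov.trans D01.all (Cov.trans D02.all (Cov.trans D03.all (Cov.trans D04.all (Cov.trans D05.all (Cov.trans D06.all (Cov.trans D07.all (Cov.trans D08.all (Cov.trans D09.all (Cov.trans D10.all (Cov.trans D11.all (Cov.trans D12.all (Cov.trans D13.all (Cov.trans D14.all (Cov.trans D15.all (Cov.trans D16.all (Cov.trans D17.all (Cov.trans D18.all (Cov.trans D19.all (Cov.trans D20.all (D21.all)))))))))))))))))))))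

end Pool.Agent.MP_0df29f_nt.Zero
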