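/-! Checkers for the numbers `2^n + e1 2^k + e2`. The code `c = 4 k + 2 u + v` stands for
`e1 = 1 - 2 u`, `e2 = 1 - 2 v`. Written with the kernel's arithmetic primitives. -/

set_option autoImplicit false

namespace Pool.Agent.MP_0df29f_nt.Zero

/-- the candidate with code `c` -/
def cand (n c : Nat) : Nat :=
  Nat.sub (Nat.add (Nat.add (Nat.pow 2 n)
      (Nat.mul (Nat.sub 1 (Nat.mod (Nat.div c 2) 2)) (Nat.pow 2 (Nat.add (Nat.div c 4) 1))))
      (Nat.mul 2 (Nat.sub 1 (Nat.mod c 2))))
    (Nat.add (Nat.pow 2 (Nat.div c 4)) 1)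

/-- one modular squaring -/
def sq1 (N x : Nat) : Nat := Nat.mod (Nat.pow x 2) N

/-- eight modular squarings -/
def sq8 (N x : Nat) : Nat :=
  Nat.mod (Nat.pow (Nat.mod (Nat.pow (Nat.mod (Nat.pow (Nat.mod (Nat.pow (Nat.mod (Nat.pow
    (Nat.mod (Nat.pow (Nat.mod (Nat.pow (Nat.mod (Nat.pow x 2) N) 2) N) 2) N) 2) N) 2) N) 2) N) 2) N)
    2) N

/-- iteration that evaluates its argument at every round -/
noncomputable def iter (f : Nat → Nat) (c : Nat) : Nat → Nat :=
  @Nat.rec (fun _ => Nat → Nat) (fun x => x)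
    (fun _ ih x => (fun y => @Bool.rec (fun _ => Nat) (ih y) (ih y) (Nat.beq y 0)) (f x)) c

/-- `j` modular squarings -/
noncomputable def sqs (N j x : Nat) : Nat :=
  iter (iter (sq8 N) 32) (Nat.div j 256)
    (iter (sq8 N) (Nat.div (Nat.mod j 256) 8) (iter (sq1 N) (Nat.mod j 8) x))

/-- the base `3` Fermat test fails -/
noncomputable def ferm (n c : Nat) : Bool :=
  (fun N => (fun y => (fun x =>
    @Bool.rec (fun _ => Bool) true false (Nat.beq
      (Nat.mod (Nat.mul x (Nat.pow y (Nat.sub 1 (Nat.mod (Nat.div c 2) 2)))) N)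
      (Nat.mod (Nat.mul (Nat.pow 9 (Nat.mod c 2)) (Nat.pow y (Nat.mod (Nat.div c 2) 2))) N)))
    (sqs N (Nat.sub n (Nat.div c 4)) y)) (sqs N (Nat.div c 4) 3)) (cand n c)

/-- `g < N` and `g` has a common factor with `N` -/
noncomputable def fac (N g : Nat) : Bool :=
  @Bool.rec (fun _ => Bool)
    (@Bool.rec (fun _ => Bool) (@Bool.rec (fun _ => Bool) true false (Nat.beq g 0)) false
      (Nat.beq (Nat.gcd (Nat.mod N g) g) 1))
    false (Nat.ble N g)

/-- the number a certificate stands for: itself when odd, `2^(d/2) - 1` when even -/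
noncomputable def dec (d : Nat) : Nat :=
  @Bool.rec (fun _ => Nat) d (Nat.sub (Nat.pow 2 (Nat.div d 2)) 1) (Nat.beq (Nat.mod d 2) 0)

/-- run through the codes `hi - len, ..., hi - 1`: a code passes through `M`, or it uses up the next
certificate; the certificate `0` asks that the code be listed in `T` -/
noncomputable def chk (n M : Nat) (T : List Nat) (hi len : Nat) : List Nat → Bool :=
  @Nat.rec (fun _ => List Nat → Bool) (fun _ => true)
    (fun j ih l => (fun c =>
      @Bool.rec (fun _ => Bool)
        (@List.rec Nat (fun _ => Bool) false (fun d r _ =>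
          @Bool.rec (fun _ => Bool)
            (@Bool.rec (fun _ => Bool) false (ih r) (fac (cand n c) (dec d)))
            (@Bool.rec (fun _ => Bool) false (ih r)
              (@List.rec Nat (fun _ => Bool) false
                (fun t _ b => @Bool.rec (fun _ => Bool) b true (Nat.beq t c)) T))
            (Nat.beq d 0)) l)
        (ih l) (fac (cand n c) M)) (Nat.sub hi (Nat.succ j))) len

/-- the product of the primes below `256` -/
def sm : Nat :=
  64266330917908644872330635228106713310880186591609208114244758680898150367880703152525200743234420230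

/-- every listed code fails the Fermat test -/
def AllF (n : Nat) (T : List Nat) : Prop :=
  @List.rec Nat (fun _ => Prop) True (fun t _ P => ferm n t = true ∧ P) T

/-- the codes `hi - len, ..., hi - 1` are certified -/
def Good (n hi len : Nat) : Prop :=
  ∃ M T l, chk n M T hi len l = true ∧ AllF n T

/-- every code from `lo` up to `hi - 1` lies in a certified block -/
def Cov (n lo hi : Nat) : Prop :=
  ∀ c, lo ≤ c → c < hi → ∃ h l, Good n h l ∧ h - l ≤ c ∧ c < h

theorem Cov.nil (n lo : Nat) : Cov n lo lo := fun _ h1 h2 => absurd h2 (Nat.not_lt.2 h1)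

theorem Cov.trans {n a b c : Nat} (h1 : Cov n a b) (h2 : Cov n b c) : Cov n a c :=
  fun x hx hy => (Nat.lt_or_ge x b).elim (fun h => h1 x hx h) (fun h => h2 x h hy)

theorem Cov.of (n lo hi M : Nat) (T l : List Nat) (h : chk n M T hi (hi - lo) l = true)
    (hT : AllF n T) : Cov n lo hi :=
  fun c h1 h2 => ⟨hi, hi - lo, ⟨M, T, l, h, hT⟩, by omega, h2⟩

end Pool.Agent.MP_0df29f_nt.Zero
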