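import Mathlib
import Pool.Agent.MP_0df29f_nt.Zero.Def

/-! Soundness of the checkers. -/

set_option autoImplicit false

namespace Pool.Agent.MP_0df29f_nt.Zero

theorem iter_eq (f : ℕ → ℕ) (c x : ℕ) : iter f c x = f^[c] x := by
  induction c generalizing x with
  | zero => rfl
  | succ c ih =>
    have : iter f (c + 1) x =
        @Bool.rec (fun _ => ℕ) (iter f c (f x)) (iter f c (f x)) (Nat.beq (f x) 0) := rfl
    rw [this, Function.iterate_succ_apply, ← ih]
    cases Nat.beq (f x) 0 <;> rfl

theorem sq8_eq (N : ℕ) : sq8 N = (sq1 N)^[8] := by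
  funext x
  rfl

theorem sq1_iter (N j x : ℕ) : (sq1 N)^[j] x ≡ x ^ 2 ^ j [MOD N] := by
  induction j with
  | zero => simp [Nat.ModEq]
  | succ j ih =>
    rw [Function.iterate_succ_apply', pow_succ, pow_mul]
    exact (Nat.mod_modEq _ _).trans (ih.pow 2)

theorem sqs_eq (N j x : ℕ) : sqs N j x = (sq1 N)^[j] x := by
  have h1 : iter (sq8 N) 32 = (sq1 N)^[256] := by
    funext y
    rw [iter_eq, sq8_eq, ← Function.iterate_mul]
  have h2 : j = 256 * (j / 256) + (8 * (j % 256 / 8) + j % 8) := by omega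
  unfold sqs
  rw [iter_eq, iter_eq, iter_eq, h1, sq8_eq, ← Function.iterate_mul, ← Function.iterate_mul,
    ← Function.iterate_add_apply, ← Function.iterate_add_apply]
  congr 1
  change 256 * (j / 256) + 8 * (j % 256 / 8) + j % 8 = j
  omega

theorem sqs_mod (N j x : ℕ) : sqs N j x ≡ x ^ 2 ^ j [MOD N] := by
  rw [sqs_eq]; exact sq1_iter N j x

theorem cand_eq (n c : ℕ) : cand n c =
    2 ^ n + (1 - c / 2 % 2) * 2 ^ (c / 4 + 1) + 2 * (1 - c % 2) - (2 ^ (c / 4) + 1) := rfl

theorem ferm_sound (n c : ℕ) (hn : 4 ≤ n) (hc : c / 4 < n) (h : ferm n c = true) :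
    ¬ (cand n c).Prime := by
  intro hp
  set N := cand n c with hN
  set k := c / 4 with hk
  set y := sqs N k 3 with hy
  set x := sqs N (n - k) y with hx
  have hf : ferm n c = @Bool.rec (fun _ => Bool) true false
      (Nat.beq (x * y ^ (1 - c / 2 % 2) % N) (9 ^ (c % 2) * y ^ (c / 2 % 2) % N)) := rfl
  have hy' : y ≡ 3 ^ 2 ^ k [MOD N] := sqs_mod N k 3
  have hx' : x ≡ 3 ^ 2 ^ n [MOD N] := by
    have := (sqs_mod N (n - k) y).trans (hy'.pow (2 ^ (n - k)))
    rwa [← pow_mul, ← pow_add, Nat.add_sub_cancel' hc.le] at this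
  have hkn : 2 * 2 ^ k ≤ 2 ^ n := by
    rw [← pow_succ']; exact Nat.pow_le_pow_right (by norm_num) hc
  have h16 : 2 ^ 4 ≤ 2 ^ n := Nat.pow_le_pow_right (by norm_num) hn
  have hNe := cand_eq n c
  rw [← hN, ← hk, pow_succ] at hNe
  have hu : c / 2 % 2 = 0 ∨ c / 2 % 2 = 1 := by omega
  have hv : c % 2 = 0 ∨ c % 2 = 1 := by omega
  have h3 : 3 < N := by
    rcases hu with hu | hu <;> rcases hv with hv | hv <;> rw [hu, hv] at hNe <;> omega
  have hco : Nat.Coprime 3 N := (Nat.coprime_primes Nat.prime_three hp).2 (by omega)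
  have hF : 3 ^ (N - 1) ≡ 1 [MOD N] := by
    have := Nat.ModEq.pow_totient hco
    rwa [Nat.totient_prime hp] at this
  have hE : 2 ^ n + 2 ^ k * (1 - c / 2 % 2) = (N - 1) + (2 * (c % 2) + 2 ^ k * (c / 2 % 2)) := by
    rcases hu with hu | hu <;> rcases hv with hv | hv <;> rw [hu, hv] at hNe ⊢ <;> omega
  have key : x * y ^ (1 - c / 2 % 2) ≡ 9 ^ (c % 2) * y ^ (c / 2 % 2) [MOD N] := by
    have a1 : x * y ^ (1 - c / 2 % 2) ≡ 3 ^ (2 ^ n + 2 ^ k * (1 - c / 2 % 2)) [MOD N] := by
      rw [pow_add, pow_mul]; exact hx'.mul (hy'.pow _)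
    have a2 : 9 ^ (c % 2) * y ^ (c / 2 % 2) ≡ 3 ^ (2 * (c % 2) + 2 ^ k * (c / 2 % 2)) [MOD N] := by
      rw [pow_add, pow_mul, pow_mul]; exact (Nat.ModEq.refl _).mul (hy'.pow _)
    refine a1.trans (Nat.ModEq.trans ?_ a2.symm)
    rw [hE, pow_add]
    have := hF.mul_right (3 ^ (2 * (c % 2) + 2 ^ k * (c / 2 % 2)))
    rwa [one_mul] at this
  rw [hf, show x * y ^ (1 - c / 2 % 2) % N = 9 ^ (c % 2) * y ^ (c / 2 % 2) % N from key,
    Nat.beq_refl] at h
  exact Bool.false_ne_true h

theorem fac_sound (N g : ℕ) (h : fac N g = true) : ¬ N.Prime := by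
  intro hp
  unfold fac at h
  cases h1 : Nat.ble N g with
  | true => rw [h1] at h; exact Bool.false_ne_true h
  | false =>
    rw [h1] at h
    cases h2 : Nat.beq (Nat.gcd (Nat.mod N g) g) 1 with
    | true => rw [h2] at h; exact Bool.false_ne_true h
    | false =>
      rw [h2] at h
      cases h3 : Nat.beq g 0 with
      | true => rw [h3] at h; exact Bool.false_ne_true h
      | false =>
        have g0 : g ≠ 0 := Nat.ne_of_beq_eq_false h3
        have gN : g < N := by
          by_contra hh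
          rw [Nat.ble_eq_true_of_le (Nat.le_of_not_lt hh)] at h1
          exact Bool.noConfusion h1
        have hco : Nat.Coprime N g := Nat.Coprime.symm
          ((Nat.coprime_of_lt_prime g0 gN hp).symm)
        have : Nat.gcd (N % g) g = 1 := by rw [← Nat.gcd_rec]; exact hco.symm
        exact Nat.ne_of_beq_eq_false h2 this

theorem mem_sound (n c : ℕ) (T : List ℕ) (hT : AllF n T)
    (h : @List.rec ℕ (fun _ => Bool) false
      (fun t _ b => @Bool.rec (fun _ => Bool) b true (Nat.beq t c)) T = true) :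
    ferm n c = true := by
  induction T with
  | nil => exact absurd h Bool.false_ne_true
  | cons t r ih =>
    obtain ⟨h1, h2⟩ : ferm n t = true ∧ AllF n r := hT
    cases e : Nat.beq t c with
    | true => rw [← Nat.eq_of_beq_eq_true e]; exact h1
    | false =>
      apply ih h2
      simp only [e] at h
      exact h

theorem chk_sound (n M : ℕ) (T : List ℕ) (hi : ℕ) (hn : 4 ≤ n) (hT : AllF n T) (len : ℕ)
    (l : List ℕ) (h : chk n M T hi len l = true) (c : ℕ) (h1 : hi - len ≤ c) (h2 : c < hi)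
    (hc : c / 4 < n) : ¬ (cand n c).Prime := by
  induction len generalizing l with
  | zero => omega
  | succ j ih =>
    have e : chk n M T hi (j + 1) l = @Bool.rec (fun _ => Bool)
        (@List.rec ℕ (fun _ => Bool) false (fun d r _ =>
          @Bool.rec (fun _ => Bool)
            (@Bool.rec (fun _ => Bool) false (chk n M T hi j r) (fac (cand n (hi - (j + 1))) (dec d)))
            (@Bool.rec (fun _ => Bool) false (chk n M T hi j r)
              (@List.rec ℕ (fun _ => Bool) false
                (fun t _ b => @Bool.rec (fun _ => Bool) b true (Nat.beq t (hi - (j + 1)))) T))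
            (Nat.beq d 0)) l)
        (chk n M T hi j l) (fac (cand n (hi - (j + 1))) M) := rfl
    rw [e] at h
    have step : (fac (cand n (hi - (j + 1))) M = true ∨ (∃ g, fac (cand n (hi - (j + 1))) g = true) ∨
        ferm n (hi - (j + 1)) = true) ∧ ∃ r, chk n M T hi j r = true := by
      cases e1 : fac (cand n (hi - (j + 1))) M with
      | true => rw [e1] at h; exact ⟨Or.inl rfl, l, h⟩
      | false =>
        rw [e1] at h
        cases l with
        | nil => exact absurd h Bool.false_ne_true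
        | cons d r =>
          simp only at h
          cases e2 : Nat.beq d 0 with
          | false =>
            rw [e2] at h
            cases e3 : fac (cand n (hi - (j + 1))) (dec d) with
            | false => rw [e3] at h; exact absurd h Bool.false_ne_true
            | true => rw [e3] at h; exact ⟨Or.inr (Or.inl ⟨_, e3⟩), r, h⟩
          | true =>
            rw [e2] at h
            cases e3 : @List.rec ℕ (fun _ => Bool) false
                (fun t _ b => @Bool.rec (fun _ => Bool) b true (Nat.beq t (hi - (j + 1)))) T with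
            | false => rw [e3] at h; exact absurd h Bool.false_ne_true
            | true => rw [e3] at h; exact ⟨Or.inr (Or.inr (mem_sound n _ T hT e3)), r, h⟩
    obtain ⟨s1, r, s2⟩ := step
    by_cases hcj : hi - j ≤ c
    · exact ih r s2 hcj
    · have : hi - (j + 1) = c := by omega
      rw [this] at s1
      rcases s1 with s | ⟨g, s⟩ | s
      · exact fac_sound _ _ s
      · exact fac_sound _ _ s
      · exact ferm_sound n c hn hc s

theorem cov_sound (n : ℕ) (hn : 4 ≤ n) (h : Cov n 0 (4 * n)) (p : ℕ) (hp : p.Prime) (k : ℕ)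
    (hk : k < n) (e₁ e₂ : ℤ) (h1 : e₁ = 1 ∨ e₁ = -1) (h2 : e₂ = 1 ∨ e₂ = -1)
    (he : (p : ℤ) = 2 ^ n + e₁ * 2 ^ k + e₂) : False := by
  have main : ∀ u v, u < 2 → v < 2 → p = cand n (4 * k + 2 * u + v) → False := by
    intro u v hu hv e
    obtain ⟨hi, len, ⟨M, T, l, a, b⟩, c1, c2⟩ := h (4 * k + 2 * u + v) (Nat.zero_le _) (by omega)
    exact chk_sound n M T hi hn b len l a _ c1 c2 (by omega) (e ▸ hp)
  have hkn : 2 * 2 ^ k ≤ 2 ^ n := by
    rw [← pow_succ']; exact Nat.pow_le_pow_right (by norm_num) hk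
  have hpos : 1 ≤ 2 ^ k := Nat.one_le_two_pow
  have c1 : ((2 ^ n : ℕ) : ℤ) = 2 ^ n := by push_cast; rfl
  have c2 : ((2 ^ k : ℕ) : ℤ) = 2 ^ k := by push_cast; rfl
  rw [← c1, ← c2] at he
  have ce : ∀ u v, u < 2 → v < 2 → cand n (4 * k + 2 * u + v) =
      2 ^ n + (1 - u) * (2 ^ k * 2) + 2 * (1 - v) - (2 ^ k + 1) := by
    intro u v hu hv
    rw [cand_eq, show (4 * k + 2 * u + v) / 4 = k by omega,
      show (4 * k + 2 * u + v) / 2 % 2 = u by omega, show (4 * k + 2 * u + v) % 2 = v by omega,
      pow_succ]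
  generalize 2 ^ n = A at *
  generalize 2 ^ k = B at *
  rcases h1 with rfl | rfl <;> rcases h2 with rfl | rfl
  · exact main 0 0 (by omega) (by omega) (by rw [ce 0 0 (by omega) (by omega)]; omega)
  · exact main 0 1 (by omega) (by omega) (by rw [ce 0 1 (by omega) (by omega)]; omega)
  · exact main 1 0 (by omega) (by omega) (by rw [ce 1 0 (by omega) (by omega)]; omega)
  · exact main 1 1 (by omega) (by omega) (by rw [ce 1 1 (by omega) (by omega)]; omega)

end Pool.Agent.MP_0df29f_nt.Zero
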